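import Pool.Agent.N236.UR.Stm2

set_option autoImplicit false

/-!
# Project UR (helper236), part GEO (helper87): a cycle gives a full configuration
-/

namespace Pool.Agent.N87.UR

open Pool.Agent.N236.UB Pool.Agent.N236.UR

section basics

variable {L : Type} [Field L]

lemma wd_lin (A : Matrix (Fin 2) (Fin 2) L) (x y : L × L) :
    wd (lin A x) (lin A y) = A.det * wd x y := by
  unfold wd lin
  rw [Matrix.det_fin_two]
  ring

lemma wd_swap (x y : L × L) : wd y x = - wd x y := by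
  unfold wd
  ring

lemma wd_self (x : L × L) : wd x x = 0 := by
  unfold wd
  ring

/-- parallel vectors -/
lemma par {x y : L × L} (h : wd x y = 0) (hy : y ≠ 0) : ∃ t : L, x = (t * y.1, t * y.2) := by
  unfold wd at h
  by_cases h1 : y.1 = 0
  · have h2 : y.2 ≠ 0 := fun h2 => hy (Prod.ext h1 h2)
    refine ⟨x.2 / y.2, Prod.ext ?_ ?_⟩
    · change x.1 = x.2 / y.2 * y.1
      rw [h1, mul_zero]
      rw [h1, mul_zero, sub_zero] at h
      exact (mul_eq_zero.1 h).resolve_right h2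
    · change x.2 = x.2 / y.2 * y.2
      rw [div_mul_cancel₀ _ h2]
  · refine ⟨x.1 / y.1, Prod.ext ?_ ?_⟩
    · change x.1 = x.1 / y.1 * y.1
      rw [div_mul_cancel₀ _ h1]
    · change x.2 = x.1 / y.1 * y.2
      field_simp
      linear_combination -h

variable (v : AbsoluteValue L ℝ)

lemma v_neg_wd (x y : L × L) : v (wd y x) = v (wd x y) := by
  rw [wd_swap, v.map_neg]

lemma mm_pos {x y : L × L} (h : wd x y ≠ 0) : 0 < mm v x y := by
  unfold mm
  rw [lt_max_iff]
  by_contra hcon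
  push Not at hcon
  obtain ⟨h1, h2⟩ := hcon
  have h3 : x.1 * y.2 = 0 := v.eq_zero.1 (le_antisymm h1 (v.nonneg _))
  have h4 : x.2 * y.1 = 0 := v.eq_zero.1 (le_antisymm h2 (v.nonneg _))
  apply h
  unfold wd
  rw [h3, h4, sub_zero]

lemma mm_comm (x y : L × L) : mm v x y = mm v y x := by
  unfold mm
  rw [max_comm, mul_comm x.2, mul_comm x.1]

end basics

/-! ### The families -/

section fam

variable {L : Type} [Field L] {v : AbsoluteValue L ℝ} {n : ℕ}

lemma Fam.ne {V : ℤ → L × L} (h : Fam n V) {i j : ℤ} (hij : ¬ (n : ℤ) ∣ i - j) :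
    wd (V i) (V j) ≠ 0 := fun h0 => hij ((h.2 i j).1 h0)

lemma Fam.pos {V : ℤ → L × L} (h : Fam n V) {i j : ℤ} (hij : ¬ (n : ℤ) ∣ i - j) :
    0 < v (wd (V i) (V j)) := v.pos (Fam.ne h hij)

lemma fam_lin {V : ℤ → L × L} (h : Fam n V) {A : Matrix (Fin 2) (Fin 2) L} (hA : A.det ≠ 0) :
    Fam n (fun i => lin A (V i)) := by
  refine ⟨fun i => by simp only [h.1 i], fun i j => ?_⟩
  simp only [wd_lin]
  rw [mul_eq_zero, or_iff_right hA]
  exact h.2 i j

lemma fam_pw {V : ℤ → L × L} (h : Fam n V) {l : ℕ}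
    (hE : ∀ x y : L × L, v (wd (pw l x) (pw l y)) = v (wd x y) * mm v x y ^ (l - 1)) :
    Fam n (fun i => pw l (V i)) := by
  refine ⟨fun i => by simp only [h.1 i], fun i j => ?_⟩
  rw [← v.eq_zero, hE, mul_eq_zero, v.eq_zero, h.2 i j]
  constructor
  · rintro (h1 | h1)
    · exact h1
    · by_contra h2
      exact (pow_pos (mm_pos v (Fam.ne h h2)) (l - 1)).ne' h1
  · exact Or.inl

/-- real cross-ratio -/
noncomputable def gr (v : AbsoluteValue L ℝ) (W : ℤ → L × L) (a b c d : ℤ) : ℝ :=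
  (v (wd (W a) (W b)) * v (wd (W c) (W d))) / (v (wd (W a) (W c)) * v (wd (W b) (W d)))

lemma gr_swap (W : ℤ → L × L) (a b c d : ℤ) : gr v W a c b d = (gr v W a b c d)⁻¹ := by
  unfold gr
  rw [inv_div]

lemma gr_pos {W : ℤ → L × L} (h : Fam n W) {a b c d : ℤ} (hD : Dis4 n a b c d) :
    0 < gr v W a b c d := by
  obtain ⟨h1, h2, h3, h4, h5, h6⟩ := hD
  unfold gr
  exact div_pos (mul_pos (Fam.pos h h1) (Fam.pos h h6)) (mul_pos (Fam.pos h h2) (Fam.pos h h5))

lemma gr_lin (W : ℤ → L × L) {A : Matrix (Fin 2) (Fin 2) L} (hA : A.det ≠ 0) (a b c d : ℤ) :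
    gr v (fun i => lin A (W i)) a b c d = gr v W a b c d := by
  have h : v A.det ≠ 0 := v.ne_zero hA
  unfold gr
  simp only [wd_lin, map_mul]
  have e1 : v A.det * v (wd (W a) (W b)) * (v A.det * v (wd (W c) (W d))) =
      (v A.det * v A.det) * (v (wd (W a) (W b)) * v (wd (W c) (W d))) := by ring
  have e2 : v A.det * v (wd (W a) (W c)) * (v A.det * v (wd (W b) (W d))) =
      (v A.det * v A.det) * (v (wd (W a) (W c)) * v (wd (W b) (W d))) := by ring
  rw [e1, e2, mul_div_mul_left _ _ (mul_ne_zero h h)]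

lemma gr_pw (U : ℤ → L × L) {l : ℕ}
    (hE : ∀ x y : L × L, v (wd (pw l x) (pw l y)) = v (wd x y) * mm v x y ^ (l - 1))
    (a b c d : ℤ) : gr v (fun i => pw l (U i)) a b c d = gr v U a b c d *
      ((mm v (U a) (U b) * mm v (U c) (U d)) / (mm v (U a) (U c) * mm v (U b) (U d))) ^ (l - 1) := by
  unfold gr
  rw [hE, hE, hE, hE, div_pow, mul_pow, mul_pow, div_mul_div_comm]
  congr 1 <;> ring

lemma Dis4.swap {a b c d : ℤ} (h : Dis4 n a b c d) : Dis4 n a c b d := by
  obtain ⟨h1, h2, h3, h4, h5, h6⟩ := h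
  refine ⟨h2, h1, h3, ?_, h6, h5⟩
  intro h
  apply h4
  rw [← neg_sub]
  exact (dvd_neg).2 h

lemma Dis4.shift {a b c d : ℤ} (h : Dis4 n a b c d) (k : ℤ) :
    Dis4 n (a + k) (b + k) (c + k) (d + k) := by
  unfold Dis4
  simp only [add_sub_add_right_eq_sub]
  exact h

/-- one step -/
lemma step {U : ℤ → L × L} (hU : Fam n U) {l : ℕ} (hl : 2 ≤ l)
    (hE : ∀ x y : L × L, v (wd (pw l x) (pw l y)) = v (wd x y) * mm v x y ^ (l - 1))
    (hE2 : ∀ a b c d : L × L, wd a b ≠ 0 → wd a c ≠ 0 → wd a d ≠ 0 → wd b c ≠ 0 → wd b d ≠ 0 →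
      wd c d ≠ 0 → v (wd a b) * v (wd c d) ≤ v (wd a c) * v (wd b d) →
      mm v a b * mm v c d ≤ mm v a c * mm v b d)
    {a b c d : ℤ} (hD : Dis4 n a b c d) (hg : gr v U a b c d ≤ 1) :
    gr v (fun i => pw l (U i)) a b c d ≤ gr v U a b c d ∧
    (gr v (fun i => pw l (U i)) a b c d = gr v U a b c d →
      mm v (U a) (U b) * mm v (U c) (U d) = mm v (U a) (U c) * mm v (U b) (U d)) := by
  have hgp := gr_pos (v := v) hU hD
  obtain ⟨h1, h2, h3, h4, h5, h6⟩ := hD
  have hmm : mm v (U a) (U b) * mm v (U c) (U d) ≤ mm v (U a) (U c) * mm v (U b) (U d) := by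
    apply hE2 _ _ _ _ (Fam.ne hU h1) (Fam.ne hU h2) (Fam.ne hU h3) (Fam.ne hU h4) (Fam.ne hU h5)
      (Fam.ne hU h6)
    unfold gr at hg
    rwa [div_le_one (mul_pos (Fam.pos hU h2) (Fam.pos hU h5))] at hg
  have hden : 0 < mm v (U a) (U c) * mm v (U b) (U d) :=
    mul_pos (mm_pos v (Fam.ne hU h2)) (mm_pos v (Fam.ne hU h5))
  have hnum : 0 < mm v (U a) (U b) * mm v (U c) (U d) :=
    mul_pos (mm_pos v (Fam.ne hU h1)) (mm_pos v (Fam.ne hU h6))
  obtain ⟨t, ht⟩ : ∃ t, t = (mm v (U a) (U b) * mm v (U c) (U d)) /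
    (mm v (U a) (U c) * mm v (U b) (U d)) := ⟨_, rfl⟩
  have ht0 : 0 ≤ t := by rw [ht]; positivity
  have ht1 : t ≤ 1 := by rw [ht, div_le_one hden]; exact hmm
  rw [gr_pw U hE, ← ht]
  constructor
  · exact mul_le_of_le_one_right hgp.le (pow_le_one₀ ht0 ht1)
  · intro h
    have h7 : t ^ (l - 1) = 1 := by
      have := mul_left_cancel₀ hgp.ne' (h.trans (mul_one _).symm)
      exact this
    have h8 : t = 1 := (pow_eq_one_iff_of_nonneg ht0 (by omega)).1 h7
    rw [ht, div_eq_one_iff_eq hden.ne'] at h8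
    exact h8

end fam

/-! ### The partial runs -/

section runs

variable {L : Type} [Field L]

lemma run_append (s t : List (Matrix (Fin 2) (Fin 2) L × ℕ)) (x : L × L) :
    run (s ++ t) x = run t (run s x) := by
  induction s generalizing x with
  | nil => rfl
  | cons a s ih => exact ih _

/-- the partial runs -/
def Wf (st : List (Matrix (Fin 2) (Fin 2) L × ℕ)) (V : ℤ → L × L) (s : ℕ) (i : ℤ) : L × L :=
  run (st.take s) (V i)

/-- after the linear map of the next step -/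
def Uf (st : List (Matrix (Fin 2) (Fin 2) L × ℕ)) (V : ℤ → L × L) (s : Fin st.length) (i : ℤ) :
    L × L := lin (st[s]).1 (Wf st V s i)

variable (st : List (Matrix (Fin 2) (Fin 2) L × ℕ)) (V : ℤ → L × L)

lemma Wf_zero : Wf st V 0 = V := by
  funext i
  unfold Wf
  rw [List.take_zero]
  rfl

lemma Wf_succ (s : Fin st.length) : Wf st V (s + 1) = fun i => pw (st[s]).2 (Uf st V s i) := by
  funext i
  unfold Wf Uf
  have h : st.take ((s : ℕ) + 1) = st.take s ++ [st[s]] := (List.take_append_getElem s.2).symm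
  rw [h, run_append]
  rfl

lemma Wf_length (i : ℤ) : Wf st V st.length i = run st (V i) := by
  unfold Wf
  rw [List.take_length]

end runs

/-! ### The geometry of the cycle -/

section main

variable {L : Type} [Field L] {v : AbsoluteValue L ℝ} {p q e n : ℕ}
  {st : List (Matrix (Fin 2) (Fin 2) L × ℕ)} {V : ℤ → L × L}

/-- the hypothesis on the steps -/
def Good (p q : ℕ) (st : List (Matrix (Fin 2) (Fin 2) L × ℕ)) : Prop :=
  ∀ s ∈ st, s.1.det ≠ 0 ∧ 2 ≤ s.2 ∧ ¬ p ∣ s.2 ∧ Nat.Coprime s.2 (q - 1)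

lemma Good.get (h : Good p q st) (s : Fin st.length) :
    (st[s]).1.det ≠ 0 ∧ 2 ≤ (st[s]).2 ∧ ¬ p ∣ (st[s]).2 ∧ Nat.Coprime (st[s]).2 (q - 1) :=
  h _ (List.getElem_mem _)

lemma hE (hEP : S_EPOW) (hL : Loc v p q e) (hp : p.Prime) (h : Good p q st) (s : Fin st.length) :
    (∀ x y : L × L, v (wd (pw (st[s]).2 x) (pw (st[s]).2 y)) =
      v (wd x y) * mm v x y ^ ((st[s]).2 - 1)) ∧
    (∀ a b c d : L × L, wd a b ≠ 0 → wd a c ≠ 0 → wd a d ≠ 0 → wd b c ≠ 0 → wd b d ≠ 0 →
      wd c d ≠ 0 → v (wd a b) * v (wd c d) ≤ v (wd a c) * v (wd b d) →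
      mm v a b * mm v c d ≤ mm v a c * mm v b d) := by
  have hs := h.get s
  exact hEP L v p q e _ hL hp (by omega) hs.2.2.1 hs.2.2.2

lemma famW (hEP : S_EPOW) (hL : Loc v p q e) (hp : p.Prime) (h : Good p q st) (hV : Fam n V) :
    ∀ s : ℕ, s ≤ st.length → Fam n (Wf st V s) := by
  intro s
  induction s with
  | zero => intro _; rw [Wf_zero]; exact hV
  | succ s ih =>
    intro hs
    have ih' := ih (Nat.le_of_succ_le hs)
    have h1 := Wf_succ st V ⟨s, hs⟩
    change Wf st V (s + 1) = _ at h1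
    rw [h1]
    exact fam_pw (v := v) (fam_lin ih' (h.get ⟨s, hs⟩).1) (hE hEP hL hp h ⟨s, hs⟩).1

lemma famU (hEP : S_EPOW) (hL : Loc v p q e) (hp : p.Prime) (h : Good p q st) (hV : Fam n V)
    (s : Fin st.length) : Fam n (Uf st V s) :=
  fam_lin (famW hEP hL hp h hV s s.2.le) (h.get s).1

lemma gr_Uf (h : Good p q st) (s : Fin st.length) (a b c d : ℤ) :
    gr v (Uf st V s) a b c d = gr v (Wf st V s) a b c d :=
  gr_lin (Wf st V s) (h.get s).1 a b c d

/-- the cross-ratio goes down along the stages -/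
lemma chain (hEP : S_EPOW) (hL : Loc v p q e) (hp : p.Prime) (h : Good p q st) (hV : Fam n V)
    {a b c d : ℤ} (hD : Dis4 n a b c d) (hg : gr v V a b c d ≤ 1) :
    ∀ s : ℕ, s ≤ st.length → gr v (Wf st V s) a b c d ≤ 1 ∧
      ∀ t : ℕ, t ≤ s → gr v (Wf st V s) a b c d ≤ gr v (Wf st V t) a b c d := by
  intro s
  induction s with
  | zero =>
    intro _
    rw [Wf_zero]
    refine ⟨hg, fun t ht => ?_⟩
    obtain rfl : t = 0 := by omega
    rw [Wf_zero]
  | succ s ih =>
    intro hs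
    obtain ⟨ih1, ih2⟩ := ih (Nat.le_of_succ_le hs)
    have h1 := Wf_succ st V ⟨s, hs⟩
    change Wf st V (s + 1) = _ at h1
    have hU : gr v (Uf st V ⟨s, hs⟩) a b c d = gr v (Wf st V s) a b c d := gr_Uf h ⟨s, hs⟩ a b c d
    have hst := (step (famU hEP hL hp h hV ⟨s, hs⟩) (h.get ⟨s, hs⟩).2.1
      (hE hEP hL hp h ⟨s, hs⟩).1 (hE hEP hL hp h ⟨s, hs⟩).2 hD (by rw [hU]; exact ih1)).1
    rw [hU] at hst
    rw [h1]
    refine ⟨hst.trans ih1, fun t ht => ?_⟩
    rcases Nat.lt_or_ge s t with h2 | h2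
    · obtain rfl : t = s + 1 := by omega
      rw [h1]
    · exact hst.trans (ih2 t h2)

/-- equality at the end gives equality everywhere -/
lemma chain_eq (hEP : S_EPOW) (hL : Loc v p q e) (hp : p.Prime) (h : Good p q st) (hV : Fam n V)
    {a b c d : ℤ} (hD : Dis4 n a b c d) (hg : gr v V a b c d ≤ 1)
    (heq : gr v (Wf st V st.length) a b c d = gr v V a b c d) :
    (∀ s : ℕ, s ≤ st.length → gr v (Wf st V s) a b c d = gr v V a b c d) ∧
    ∀ s : Fin st.length, mm v (Uf st V s a) (Uf st V s b) * mm v (Uf st V s c) (Uf st V s d) =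
      mm v (Uf st V s a) (Uf st V s c) * mm v (Uf st V s b) (Uf st V s d) := by
  have h1 : ∀ s : ℕ, s ≤ st.length → gr v (Wf st V s) a b c d = gr v V a b c d := by
    intro s hs
    apply le_antisymm
    · have := (chain hEP hL hp h hV hD hg s hs).2 0 (Nat.zero_le _)
      rwa [Wf_zero] at this
    · rw [← heq]
      exact (chain hEP hL hp h hV hD hg st.length le_rfl).2 s hs
  refine ⟨h1, fun s => ?_⟩
  have hU : gr v (Uf st V s) a b c d = gr v V a b c d := by
    rw [gr_Uf h s]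
    exact h1 s s.2.le
  refine (step (famU hEP hL hp h hV s) (h.get s).2.1 (hE hEP hL hp h s).1
    (hE hEP hL hp h s).2 hD (by rw [hU]; exact hg)).2 ?_
  have h2 := h1 (s + 1) s.2
  rw [Wf_succ st V s] at h2
  rw [h2, hU]

/-- the multipliers -/
lemma mult {B : Matrix (Fin 2) (Fin 2) L} (hB : B.det ≠ 0) {W : ℤ → L × L} (hn : 2 ≤ n)
    (hV : Fam n V) (hW : Fam n W)
    (hc : ∀ i, wd (lin B (W i)) (V (i + 1)) = 0) :
    ∃ lam : ℤ → L, (∀ i, lam i ≠ 0) ∧
      ∀ i j, B.det * wd (W i) (W j) = lam i * lam j * wd (V (i + 1)) (V (j + 1)) := by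
  have hnd : ∀ i : ℤ, ¬ (n : ℤ) ∣ i - (i + 1) := by
    intro i h
    have h1 : (n : ℤ) ∣ 1 := by
      have : i - (i + 1) = -1 := by ring
      rw [this] at h
      exact (dvd_neg).1 h
    have h2 := Int.le_of_dvd (by norm_num) h1
    omega
  have hne : ∀ i : ℤ, V (i + 1) ≠ 0 := by
    intro i h0
    apply Fam.ne hV (hnd (i + 1))
    unfold wd
    rw [h0]
    simp
  choose lam hlam using fun i => par (hc i) (hne i)
  have hw : ∀ i j, B.det * wd (W i) (W j) = lam i * lam j * wd (V (i + 1)) (V (j + 1)) := by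
    intro i j
    rw [← wd_lin, hlam i, hlam j]
    unfold wd
    ring
  refine ⟨lam, fun i h0 => ?_, hw⟩
  have h1 := hw i (i + 1)
  rw [h0, zero_mul, zero_mul] at h1
  exact (mul_ne_zero hB (Fam.ne hW (hnd i))) h1

lemma gr_mult {B : Matrix (Fin 2) (Fin 2) L} (hB : B.det ≠ 0) {W : ℤ → L × L}
    {lam : ℤ → L} (hl : ∀ i, lam i ≠ 0)
    (hw : ∀ i j, B.det * wd (W i) (W j) = lam i * lam j * wd (V (i + 1)) (V (j + 1)))
    (a b c d : ℤ) : gr v V (a + 1) (b + 1) (c + 1) (d + 1) = gr v W a b c d := by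
  have hb : v B.det ≠ 0 := v.ne_zero hB
  have hw' : ∀ i j, v (wd (W i) (W j)) =
      (v B.det)⁻¹ * (v (lam i) * v (lam j)) * v (wd (V (i + 1)) (V (j + 1))) := by
    intro i j
    have := congrArg v (hw i j)
    rw [map_mul, map_mul, map_mul] at this
    field_simp
    linear_combination this
  unfold gr
  rw [hw' a b, hw' c d, hw' a c, hw' b d]
  have h1 : (v B.det)⁻¹ * (v (lam a) * v (lam b)) * v (wd (V (a + 1)) (V (b + 1))) *
      ((v B.det)⁻¹ * (v (lam c) * v (lam d)) * v (wd (V (c + 1)) (V (d + 1)))) =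
      ((v B.det)⁻¹ * (v B.det)⁻¹ * (v (lam a) * v (lam b) * v (lam c) * v (lam d))) *
      (v (wd (V (a + 1)) (V (b + 1))) * v (wd (V (c + 1)) (V (d + 1)))) := by ring
  have h2 : (v B.det)⁻¹ * (v (lam a) * v (lam c)) * v (wd (V (a + 1)) (V (c + 1))) *
      ((v B.det)⁻¹ * (v (lam b) * v (lam d)) * v (wd (V (b + 1)) (V (d + 1)))) =
      ((v B.det)⁻¹ * (v B.det)⁻¹ * (v (lam a) * v (lam b) * v (lam c) * v (lam d))) *
      (v (wd (V (a + 1)) (V (c + 1))) * v (wd (V (b + 1)) (V (d + 1)))) := by ring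
  rw [h1, h2, mul_div_mul_left]
  have := v.ne_zero (hl a)
  have := v.ne_zero (hl b)
  have := v.ne_zero (hl c)
  have := v.ne_zero (hl d)
  positivity

/-- all cross-ratios are preserved: case `≤ 1` -/
lemma key0 (hEP : S_EPOW) (hL : Loc v p q e) (hp : p.Prime) (h : Good p q st) (hV : Fam n V)
    {B : Matrix (Fin 2) (Fin 2) L} (hB : B.det ≠ 0) (hn : 4 ≤ n)
    (hc : ∀ i, wd (lin B (run st (V i))) (V (i + 1)) = 0)
    {a b c d : ℤ} (hD : Dis4 n a b c d) (hg : gr v V a b c d ≤ 1) :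
    gr v (Wf st V st.length) a b c d = gr v V a b c d := by
  obtain ⟨lam, hl, hw⟩ := mult (W := Wf st V st.length) hB (by omega) hV
    (famW hEP hL hp h hV _ le_rfl) (fun i => by rw [Wf_length]; exact hc i)
  have hsh := gr_mult (v := v) hB hl hw
  -- one period
  have hmon : ∀ k : ℕ, gr v V (a + k) (b + k) (c + k) (d + k) ≤ 1 ∧
      gr v V (a + k) (b + k) (c + k) (d + k) ≤ gr v (Wf st V st.length) a b c d ∨ k = 0 := by
    intro k
    induction k with
    | zero => exact Or.inr rfl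
    | succ k ih =>
      left
      have hk1 : gr v V (a + k) (b + k) (c + k) (d + k) ≤ 1 := by
        rcases ih with ih | ih
        · exact ih.1
        · rw [ih]
          simpa using hg
      have hch := (chain hEP hL hp h hV (Dis4.shift hD (k : ℤ)) hk1 st.length le_rfl)
      have hs := hsh (a + k) (b + k) (c + k) (d + k)
      have e1 : ∀ x : ℤ, x + ((k + 1 : ℕ) : ℤ) = x + k + 1 := by intro x; push_cast; ring
      rw [e1, e1, e1, e1, hs]
      refine ⟨hch.1, ?_⟩
      rcases ih with ih | ih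
      · have := hch.2 0 (Nat.zero_le _)
        rw [Wf_zero] at this
        exact this.trans ih.2
      · rw [ih]
        simp
  have hper : gr v V (a + (n : ℕ)) (b + (n : ℕ)) (c + (n : ℕ)) (d + (n : ℕ)) = gr v V a b c d := by
    unfold gr
    rw [hV.1, hV.1, hV.1, hV.1]
  apply le_antisymm
  · have := (chain hEP hL hp h hV hD hg st.length le_rfl).2 0 (Nat.zero_le _)
    rwa [Wf_zero] at this
  · rcases hmon n with h1 | h1
    · rw [hper] at h1
      exact h1.2
    · omega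

/-- all cross-ratios are preserved -/
lemma key (hEP : S_EPOW) (hL : Loc v p q e) (hp : p.Prime) (h : Good p q st) (hV : Fam n V)
    {B : Matrix (Fin 2) (Fin 2) L} (hB : B.det ≠ 0) (hn : 4 ≤ n)
    (hc : ∀ i, wd (lin B (run st (V i))) (V (i + 1)) = 0)
    {a b c d : ℤ} (hD : Dis4 n a b c d) :
    (∀ s : ℕ, s ≤ st.length → gr v (Wf st V s) a b c d = gr v V a b c d) ∧
    ∀ s : Fin st.length, mm v (Uf st V s a) (Uf st V s b) * mm v (Uf st V s c) (Uf st V s d) =
      mm v (Uf st V s a) (Uf st V s c) * mm v (Uf st V s b) (Uf st V s d) := by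
  rcases le_or_gt (gr v V a b c d) 1 with hg | hg
  · exact chain_eq hEP hL hp h hV hD hg (key0 hEP hL hp h hV hB hn hc hD hg)
  · have hg' : gr v V a c b d ≤ 1 := by
      rw [gr_swap]
      exact inv_le_one_of_one_le₀ hg.le
    obtain ⟨h1, h2⟩ := chain_eq hEP hL hp h hV (Dis4.swap hD) hg'
      (key0 hEP hL hp h hV hB hn hc (Dis4.swap hD) hg')
    refine ⟨fun s hs => ?_, fun s => (h2 s).symm⟩
    have h3 := h1 s hs
    rw [gr_swap (Wf st V s) a b c d, gr_swap V a b c d] at h3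
    exact inv_injective h3

/-- algebraic cross-ratio: numerator and denominator -/
def cn (W : ℤ → L × L) (i u j j' : ℤ) : L := wd (W i) (W j) * wd (W u) (W j')

/-- the ratio `(i,u;j,j')` -/
noncomputable def cr (W : ℤ → L × L) (i u j j' : ℤ) : L := cn W i u j j' / cn W i u j' j

lemma cn_ne {W : ℤ → L × L} (hW : Fam n W) {i u j j' : ℤ} (hD : Dis4 n i u j j') :
    cn W i u j j' ≠ 0 ∧ cn W i u j' j ≠ 0 := by
  obtain ⟨h1, h2, h3, h4, h5, h6⟩ := hD
  exact ⟨mul_ne_zero (Fam.ne hW h2) (Fam.ne hW h5), mul_ne_zero (Fam.ne hW h3) (Fam.ne hW h4)⟩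

lemma cr_lin (W : ℤ → L × L) {A : Matrix (Fin 2) (Fin 2) L} (hA : A.det ≠ 0) (i u j j' : ℤ) :
    cr (fun i => lin A (W i)) i u j j' = cr W i u j j' := by
  unfold cr cn
  simp only [wd_lin]
  have e1 : A.det * wd (W i) (W j) * (A.det * wd (W u) (W j')) =
      (A.det * A.det) * (wd (W i) (W j) * wd (W u) (W j')) := by ring
  have e2 : A.det * wd (W i) (W j') * (A.det * wd (W u) (W j)) =
      (A.det * A.det) * (wd (W i) (W j') * wd (W u) (W j)) := by ring
  rw [e1, e2, mul_div_mul_left _ _ (mul_ne_zero hA hA)]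

lemma cr_mult {B : Matrix (Fin 2) (Fin 2) L} (hB : B.det ≠ 0) {W : ℤ → L × L}
    {lam : ℤ → L} (hl : ∀ i, lam i ≠ 0)
    (hw : ∀ i j, B.det * wd (W i) (W j) = lam i * lam j * wd (V (i + 1)) (V (j + 1)))
    (i u j j' : ℤ) : cr V (i + 1) (u + 1) (j + 1) (j' + 1) = cr W i u j j' := by
  have h1 : (B.det * B.det) * cn W i u j j' =
      (lam i * lam u * lam j * lam j') * cn V (i + 1) (u + 1) (j + 1) (j' + 1) := by
    unfold cn
    linear_combination (B.det * wd (W u) (W j')) * hw i j +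
      (lam i * lam j * wd (V (i + 1)) (V (j + 1))) * hw u j'
  have h2 : (B.det * B.det) * cn W i u j' j =
      (lam i * lam u * lam j * lam j') * cn V (i + 1) (u + 1) (j' + 1) (j + 1) := by
    unfold cn
    linear_combination (B.det * wd (W u) (W j)) * hw i j' +
      (lam i * lam j' * wd (V (i + 1)) (V (j' + 1))) * hw u j
  have hlam : lam i * lam u * lam j * lam j' ≠ 0 :=
    mul_ne_zero (mul_ne_zero (mul_ne_zero (hl i) (hl u)) (hl j)) (hl j')
  unfold cr
  rw [← mul_div_mul_left _ _ hlam, ← h1, ← h2, mul_div_mul_left _ _ (mul_ne_zero hB hB)]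

/-- units congruent to one -/
lemma one_mul_lt (hL : Loc v p q e) {x y : L} (hx : v (x - 1) < 1) (hy : v (y - 1) < 1) :
    v (x * y - 1) < 1 := by
  have hu := hL.1
  have hx1 : v x ≤ 1 := by
    have := hu (x - 1) 1
    rw [sub_add_cancel, map_one] at this
    exact this.trans (max_le hx.le le_rfl)
  have h1 : x * y - 1 = x * (y - 1) + (x - 1) := by ring
  rw [h1]
  refine (hu _ _).trans_lt (max_lt ?_ hx)
  rw [map_mul]
  exact (mul_le_of_le_one_left (v.nonneg _) hx1).trans_lt hy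

lemma sub_lt_iff {x y : L} (hy : y ≠ 0) : v (x - y) < v y ↔ v (x / y - 1) < 1 := by
  have h1 : x / y - 1 = (x - y) / y := by field_simp
  rw [h1, map_div₀, div_lt_one (v.pos hy)]

/-- the residues of the cross-ratios along the stages -/
lemma chain_cr (hL : Loc v p q e) {i u j j' : ℤ} (hD : Dis4 n i u j j')
    (hW : ∀ s : ℕ, s ≤ st.length → Fam n (Wf st V s)) (h : Good p q st)
    (hs : ∀ s : Fin st.length,
      v (cr (Wf st V (s + 1)) i u j j' / cr (Uf st V s) i u j j' - 1) < 1) :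
    ∀ s : ℕ, s ≤ st.length → v (cr (Wf st V s) i u j j' / cr V i u j j' - 1) < 1 := by
  have hcr : ∀ s : ℕ, s ≤ st.length → cr (Wf st V s) i u j j' ≠ 0 := by
    intro s hs
    obtain ⟨h1, h2⟩ := cn_ne (hW s hs) hD
    exact div_ne_zero h1 h2
  have h0 : cr V i u j j' ≠ 0 := by
    have := hcr 0 (Nat.zero_le _)
    rwa [Wf_zero] at this
  intro s
  induction s with
  | zero =>
    intro _
    rw [Wf_zero, div_self h0, sub_self, map_zero]
    exact one_pos
  | succ s ih =>
    intro hs1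
    have h1 := ih (Nat.le_of_succ_le hs1)
    have h2 := hs ⟨s, hs1⟩
    have h3 : cr (Uf st V ⟨s, hs1⟩) i u j j' = cr (Wf st V s) i u j j' :=
      cr_lin (Wf st V s) (h.get ⟨s, hs1⟩).1 i u j j'
    rw [h3] at h2
    change v (cr (Wf st V (s + 1)) i u j j' / cr (Wf st V s) i u j j' - 1) < 1 at h2
    have h4 := one_mul_lt hL h2 h1
    rwa [div_mul_div_cancel₀ (hcr s (Nat.le_of_succ_le hs1))] at h4

end main

section final

variable {L : Type} [Field L] {v : AbsoluteValue L ℝ} {p q e n : ℕ}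

lemma not_rel_not_dvd {rel : ℤ → ℤ → Prop} (h1 : Equivalence rel)
    (h2 : ∀ i j j' : ℤ, (n : ℤ) ∣ j - j' → rel i j → rel i j') {i j : ℤ} (h : ¬ rel i j) :
    ¬ (n : ℤ) ∣ i - j := fun h3 => h (h2 i i j h3 (h1.refl i))

/-- transport of the stage data from `U` to `V` -/
lemma stg_transport (hRK : S_RK) (hn : 4 ≤ n) {V U : ℤ → L × L} {c : ℤ → ℝ} (hC : Cfg v n V c)
    (hU : Fam n U) (hg : ∀ a b c d : ℤ, Dis4 n a b c d → gr v U a b c d = gr v V a b c d)
    {rel : ℤ → ℤ → Prop} {d : ℤ → ℝ} (hS : Stg v n U (fun _ => 1) rel d) :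
    ∃ d' : ℤ → ℝ, Stg v n V c rel d' := by
  have hV := hC.1
  obtain ⟨b, hb0, hbn, hb⟩ := hRK n (fun i j => v (wd (U i) (U j)) / v (wd (V i) (V j))) hn
    (fun i j => by
      change v (wd (U i) (U j)) / v (wd (V i) (V j)) = v (wd (U j) (U i)) / v (wd (V j) (V i))
      rw [v_neg_wd v (U j) (U i), v_neg_wd v (V j) (V i)])
    (fun i j => by
      change v (wd (U (i + n)) (U j)) / v (wd (V (i + n)) (V j)) =
        v (wd (U i) (U j)) / v (wd (V i) (V j))
      rw [hU.1, hV.1])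
    (fun i j hij => div_pos (Fam.pos hU hij) (Fam.pos hV hij))
    (fun a b c d hD => by
      have h1 := hg a b c d hD
      obtain ⟨h2, h3, h4, h5, h6, h7⟩ := hD
      unfold gr at h1
      have p1 := Fam.pos (v := v) hU h2
      have p2 := Fam.pos (v := v) hU h3
      have p3 := Fam.pos (v := v) hU h6
      have p4 := Fam.pos (v := v) hU h7
      have r1 := Fam.pos (v := v) hV h2
      have r2 := Fam.pos (v := v) hV h3
      have r3 := Fam.pos (v := v) hV h6
      have r4 := Fam.pos (v := v) hV h7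
      change v (wd (U a) (U b)) / v (wd (V a) (V b)) * (v (wd (U c) (U d)) / v (wd (V c) (V d))) =
        v (wd (U a) (U c)) / v (wd (V a) (V c)) * (v (wd (U b) (U d)) / v (wd (V b) (V d)))
      rw [div_eq_div_iff (by positivity) (by positivity)] at h1
      rw [div_mul_div_comm, div_mul_div_comm, div_eq_div_iff (by positivity) (by positivity)]
      linear_combination h1)
  obtain ⟨s1, s2, s3, s4, s5, s6⟩ := hS
  obtain ⟨-, hc0, hcn, -⟩ := hC
  have hdl : ∀ i j : ℤ, ¬ (n : ℤ) ∣ i - j →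
      dl v V c i j = (c i / b i) * (c j / b j) * dl v U (fun _ => 1) i j := by
    intro i j hij
    have h1 := hb i j hij
    have r1 := Fam.pos (v := v) hV hij
    have b1 := hb0 i
    have b2 := hb0 j
    change v (wd (U i) (U j)) / v (wd (V i) (V j)) = b i * b j at h1
    rw [div_eq_iff r1.ne'] at h1
    unfold dl
    rw [h1]
    field_simp
  refine ⟨fun i => c i * d i / b i, s1, s2, fun i => ?_, fun i => ?_, fun i j hij => ?_,
    fun i j hij => ?_⟩
  · have := hc0 i
    have := s3 i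
    have := hb0 i
    positivity
  · change c (i + n) * d (i + n) / b (i + n) = c i * d i / b i
    rw [hcn, s4, hbn]
  · rw [hdl i j (not_rel_not_dvd s1 s2 hij), s5 i j hij]
    have := hb0 i
    have := hb0 j
    field_simp
  · by_cases h1 : (n : ℤ) ∣ i - j
    · have h2 : dl v V c i j = 0 := by
        unfold dl
        rw [(hV.2 i j).2 h1, map_zero, mul_zero]
      rw [h2]
      have := hc0 i
      have := s3 i
      have := hb0 i
      have := hc0 j
      have := s3 j
      have := hb0 j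
      positivity
    · rw [hdl i j h1]
      have h2 := s6 i j hij
      have c1 := hc0 i
      have c2 := hb0 i
      have c3 := hc0 j
      have c4 := hb0 j
      have h3 : (c i / b i) * (c j / b j) * dl v U (fun _ => 1) i j <
          (c i / b i) * (c j / b j) * (d i * d j) := mul_lt_mul_of_pos_left h2 (by positivity)
      refine h3.trans_eq ?_
      field_simp

theorem t_geo (hEP : S_EPOW) (hRK : S_RK) (hCO : S_CONF) (hSG : S_STG) : S_GEO := by
  intro L _ v p q e hL hp st B hst hB n V hn hV hc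
  have hG : Good p q st := hst
  have hW := famW hEP hL hp hG hV
  have hU := famU hEP hL hp hG hV
  have hk := fun (a b c d : ℤ) (hD : Dis4 n a b c d) => key hEP hL hp hG hV hB hn hc hD
  obtain ⟨lam, hl, hw⟩ := mult (W := Wf st V st.length) hB (by omega) hV
    (hW _ le_rfl) (fun i => by rw [Wf_length]; exact hc i)
  have hsh := gr_mult (v := v) hB hl hw
  -- the metric
  obtain ⟨c, hC⟩ := hCO L v n V hn hV (fun a b c d hD => by
    have h1 : gr v V (a + 1) (b + 1) (c + 1) (d + 1) = gr v V a b c d := by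
      rw [hsh]
      exact (hk a b c d hD).1 _ le_rfl
    have hD' := Dis4.shift hD 1
    obtain ⟨h2, h3, h4, h5, h6, h7⟩ := hD
    obtain ⟨g2, g3, g4, g5, g6, g7⟩ := hD'
    unfold gr at h1
    have r2 := Fam.pos (v := v) hV h3
    have r3 := Fam.pos (v := v) hV h6
    have p2 := Fam.pos (v := v) hV g3
    have p3 := Fam.pos (v := v) hV g6
    rw [div_eq_div_iff (by positivity) (by positivity)] at h1
    linear_combination h1)
  -- the stages
  have hstage : ∀ s : Fin st.length, ∃ (rel : ℤ → ℤ → Prop) (d : ℤ → ℝ), Stg v n V c rel d ∧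
      ∀ i u j j' : ℤ, Dis4 n i u j j' → (rel i u ∨ rel j j') →
        v (cr (Wf st V (s + 1)) i u j j' / cr (Uf st V s) i u j j' - 1) < 1 := by
    intro s
    have hs := hG.get s
    obtain ⟨rel, d, hS, hR⟩ := hSG L v p q e (st[s]).2 n hL hp hs.2.1 hs.2.2.1 hs.2.2.2 hn
      (Uf st V s) (hU s) (fun a b c d hD => (hk a b c d hD).2 s)
    obtain ⟨d', hS'⟩ := stg_transport hRK hn hC (hU s) (fun a b c d hD => by
      rw [gr_Uf hG s]
      exact (hk a b c d hD).1 s s.2.le) hS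
    refine ⟨rel, d', hS', fun i u j j' hD hr => ?_⟩
    have h1 := hR i u j j' hD hr
    have hW1 := hW (s + 1) s.2
    rw [Wf_succ] at hW1 ⊢
    obtain ⟨n1, n2⟩ := cn_ne hW1 hD
    obtain ⟨m1, m2⟩ := cn_ne (hU s) hD
    have h2 : cr (fun i => pw (st[s]).2 (Uf st V s i)) i u j j' / cr (Uf st V s) i u j j' =
        (cn (fun i => pw (st[s]).2 (Uf st V s i)) i u j j' * cn (Uf st V s) i u j' j) /
        (cn (fun i => pw (st[s]).2 (Uf st V s i)) i u j' j * cn (Uf st V s) i u j j') := by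
      unfold cr
      rw [div_div_div_eq]
    rw [h2, ← sub_lt_iff (mul_ne_zero n2 m1)]
    exact h1
  choose rel d hSt hR using hstage
  refine ⟨c, rel, d, hC, hSt, fun i u j j' hD hr => ?_⟩
  have h1 := chain_cr hL hD hW hG (fun s => hR s i u j j' hD (hr s)) st.length le_rfl
  rw [← cr_mult hB hl hw i u j j'] at h1
  have hD' := Dis4.shift hD 1
  obtain ⟨n1, n2⟩ := cn_ne hV hD
  obtain ⟨m1, m2⟩ := cn_ne hV hD'
  have h2 : cr V (i + 1) (u + 1) (j + 1) (j' + 1) / cr V i u j j' =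
      (cn V (i + 1) (u + 1) (j + 1) (j' + 1) * cn V i u j' j) /
      (cn V (i + 1) (u + 1) (j' + 1) (j + 1) * cn V i u j j') := by
    unfold cr
    rw [div_div_div_eq]
  rw [h2, ← sub_lt_iff (mul_ne_zero m2 n1)] at h1
  exact h1

end final

end Pool.Agent.N87.UR
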